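import Pool.Agent.H332.HT.Defs

/-!
Project HT (helper332), MP_eba1ef_gt: proof of `S_ball`.
-/

set_option autoImplicit false

namespace Pool.Agent.H694.HT

open Pool.Agent.H332.HT Set Topology

theorem ball (hP : S_P) : S_ball := by
  intro K hK x y m hx hy hxy hm hmK
  obtain ⟨-, hPc, -, hP0, -, hPI, hPcomb⟩ := hP K hK
  set Q : Set V2 := {p : V2 | ((p, -1) : V3) ∈ K} with hQ
  have hcont : Continuous (fun p : V2 => ((p, (-1 : ℝ)) : V3)) := by fun_prop
  have hQcl : IsClosed Q := hK.cpt.isClosed.preimage hcont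
  have hQcv : Convex ℝ Q := by
    intro p hp r hr a b ha hb hab
    have h1 := hK.cvx hp hr ha hb hab
    have e : a • ((p, (-1 : ℝ)) : V3) + b • ((r, (-1 : ℝ)) : V3) =
        ((a • p + b • r, (-1 : ℝ)) : V3) := by
      ext
      · simp
      · simp
      · simp only [Prod.snd_add, Prod.smul_snd, smul_eq_mul]
        linarith
    rw [e] at h1
    exact h1
  have hQs : ∀ p ∈ Q, -p ∈ Q := fun p hp => hK.symm p _ hp
  have hQ00 : (0 : V2) ∈ Q := by
    have := hQcv hx (hQs x hx) (a := 1 / 2) (b := 1 / 2) (by norm_num) (by norm_num) (by norm_num)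
    simpa using this
  -- `0` is interior
  have hQ0 : (0 : V2) ∈ interior Q := by
    rw [mem_interior]
    refine ⟨{p : V2 | |det p y| + |det x p| < |det x y|}, ?_, ?_, ?_⟩
    · intro p hp
      have hp' : |det p y| + |det x p| < |det x y| := hp
      have hD : 0 < |det x y| := abs_pos.2 hxy
      set α : ℝ := det p y / det x y with hα
      set β : ℝ := det x p / det x y with hβ
      have e : p = α • x + β • y := by
        have h0 : det x y ≠ 0 := hxy
        ext
        · simp only [hα, hβ, Prod.fst_add, Prod.smul_fst, smul_eq_mul]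
          field_simp
          unfold det
          ring
        · simp only [hα, hβ, Prod.snd_add, Prod.smul_snd, smul_eq_mul]
          field_simp
          unfold det
          ring
      have hαβ : |α| + |β| ≤ 1 := by
        rw [hα, hβ, abs_div, abs_div, ← add_div, div_le_one hD]
        exact hp'.le
      have hsx : ∀ c : ℝ, ∀ w : V2, w ∈ Q → ∃ w' ∈ Q, c • w = |c| • w' := by
        intro c w hw
        rcases le_total 0 c with hc | hc
        · exact ⟨w, hw, by rw [abs_of_nonneg hc]⟩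
        · exact ⟨-w, hQs w hw, by rw [abs_of_nonpos hc, smul_neg, neg_smul, neg_neg]⟩
      obtain ⟨x', hx', ex⟩ := hsx α x hx
      obtain ⟨y', hy', ey⟩ := hsx β y hy
      rw [e, ex, ey]
      by_cases hs : |α| + |β| = 0
      · have h1 : |α| = 0 := by
          have := abs_nonneg α; have := abs_nonneg β; linarith
        have h2 : |β| = 0 := by
          have := abs_nonneg α; have := abs_nonneg β; linarith
        rw [h1, h2, zero_smul, zero_smul, add_zero]
        exact hQ00
      · have hs0 : 0 < |α| + |β| :=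
          lt_of_le_of_ne (add_nonneg (abs_nonneg _) (abs_nonneg _)) (Ne.symm hs)
        have h1 := hQcv hx' hy' (a := |α| / (|α| + |β|)) (b := |β| / (|α| + |β|))
          (by positivity) (by positivity) (by rw [← add_div, div_self hs])
        have h2 := hQcv h1 hQ00 (a := |α| + |β|) (b := 1 - (|α| + |β|)) hs0.le
          (by linarith) (by ring)
        have e2 : (|α| + |β|) • ((|α| / (|α| + |β|)) • x' + (|β| / (|α| + |β|)) • y') +
            (1 - (|α| + |β|)) • (0 : V2) = |α| • x' + |β| • y' := by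
          rw [smul_zero, add_zero, smul_add, smul_smul, smul_smul]
          congr 2
          · field_simp
          · field_simp
        rw [e2] at h2
        exact h2
    · apply isOpen_lt
      · unfold det; fun_prop
      · exact continuous_const
    · change |det 0 y| + |det x 0| < |det x y|
      have h1 : det 0 y = 0 := by simp [det]
      have h2 : det x 0 = 0 := by simp [det]
      rw [h1, h2, abs_zero, add_zero]
      exact abs_pos.2 hxy
  -- interior points by scaling
  have hscale : ∀ p ∈ Q, ∀ s : ℝ, 0 ≤ s → s < 1 → s • p ∈ interior Q := by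
    intro p hp s hs0 hs1
    have h1 := hQcv.combo_interior_self_mem_interior hQ0 hp (a := 1 - s) (b := s)
      (by linarith) hs0 (by ring)
    rwa [smul_zero, zero_add] at h1
  -- the last point of the segment
  obtain ⟨s₁, ⟨⟨hs₁0, hs₁1⟩, hs₁Q⟩, hs₁max⟩ : ∃ s : ℝ, IsGreatest
      (Icc (0 : ℝ) 1 ∩ (fun s : ℝ => s • m) ⁻¹' Q) s := by
    apply IsCompact.exists_isGreatest
    · exact isCompact_Icc.inter_right (hQcl.preimage (by fun_prop))
    · exact ⟨0, ⟨le_rfl, zero_le_one⟩, by simpa using hQ00⟩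
  have hs₁Q : s₁ • m ∈ Q := hs₁Q
  have hs₁lt : s₁ < 1 := by
    rcases lt_or_eq_of_le hs₁1 with h | h
    · exact h
    · exfalso
      rw [h, one_smul] at hs₁Q
      exact hmK hs₁Q
  have hbeyond : ∀ s : ℝ, s₁ < s → s ≤ 1 → s • m ∉ Q := by
    intro s h1 h2 h3
    exact absurd (hs₁max ⟨⟨hs₁0.trans h1.le, h2⟩, h3⟩) (not_le.2 h1)
  have hA₀int : s₁ • m ∉ interior Q := by
    intro hcon
    have hc : ContinuousAt (fun s : ℝ => s • m) s₁ := by fun_prop
    have h1 := hc.preimage_mem_nhds (isOpen_interior.mem_nhds hcon)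
    obtain ⟨ε, hε, hb⟩ := Metric.mem_nhds_iff.1 h1
    set s := min (s₁ + ε / 2) 1 with hs
    have h2 : s₁ < s := lt_min (by linarith) hs₁lt
    have h3 : s ≤ s₁ + ε / 2 := min_le_left _ _
    have h4 : s ∈ Metric.ball s₁ ε := by
      rw [Metric.mem_ball, Real.dist_eq, abs_of_pos (by linarith)]
      linarith
    exact hbeyond s h2 (min_le_right _ _) (interior_subset (hb h4))
  have hs₁pos : 0 < s₁ := by
    rcases lt_or_eq_of_le hs₁0 with h | h
    · exact h
    · exfalso
      apply hA₀int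
      rw [← h, zero_smul]
      exact hQ0
  set A₀ : V2 := s₁ • m with hA₀
  have hA₀I : A₀ ∈ IP K := by
    have := hPcomb m hm 0 (hPI 0 hP0) s₁ hs₁pos hs₁1
    rwa [smul_zero, add_zero] at this
  -- a Euclidean disc in the interior of the shadow
  obtain ⟨δ, hδ, hδI⟩ : ∃ δ : ℝ, 0 < δ ∧ ∀ p : V2,
      (p.1 - A₀.1) ^ 2 + (p.2 - A₀.2) ^ 2 < δ → p ∈ IP K := by
    obtain ⟨ε, hε, hb⟩ := Metric.isOpen_iff.1 (isOpen_interior : IsOpen (IP K)) _ hA₀I
    refine ⟨ε ^ 2, by positivity, ?_⟩
    intro p hp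
    apply hb
    rw [Metric.mem_ball, Prod.dist_eq, Real.dist_eq, Real.dist_eq]
    apply max_lt
    · exact abs_lt_of_sq_lt_sq (by nlinarith [sq_nonneg (p.2 - A₀.2)]) hε.le
    · exact abs_lt_of_sq_lt_sq (by nlinarith [sq_nonneg (p.1 - A₀.1)]) hε.le
  -- the centre
  set NN : V2 → ℝ := fun p => p.1 ^ 2 + p.2 ^ 2 with hNN
  have hNN0 : ∀ p, 0 ≤ NN p := fun p => by positivity
  obtain ⟨s, hs0, hs1, hsd⟩ : ∃ s : ℝ, 0 ≤ s ∧ s < 1 ∧ 4 * NN (s • A₀ - A₀) < δ := by
    set τ : ℝ := min 1 (δ / (8 * (NN A₀ + 1))) with hτ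
    have h1 : 0 < NN A₀ + 1 := by have := hNN0 A₀; linarith
    have hτ0 : 0 < τ := lt_min one_pos (by positivity)
    have hτ1 : τ ≤ 1 := min_le_left _ _
    have hτ2 : τ * (NN A₀ + 1) ≤ δ / 8 := by
      have h2 : τ ≤ δ / (8 * (NN A₀ + 1)) := min_le_right _ _
      rw [le_div_iff₀ (by positivity)] at h2
      linarith
    refine ⟨1 - τ, by linarith, by linarith, ?_⟩
    have e : NN ((1 - τ) • A₀ - A₀) = τ ^ 2 * NN A₀ := by
      simp only [hNN, Prod.fst_sub, Prod.snd_sub, Prod.smul_fst, Prod.smul_snd, smul_eq_mul]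
      ring
    rw [e]
    have h3 := hNN0 A₀
    have h4 : τ ^ 2 * NN A₀ ≤ τ * (NN A₀ + 1) := by
      calc τ ^ 2 * NN A₀ = τ * (τ * NN A₀) := by ring
        _ ≤ τ * (1 * NN A₀) := by gcongr
        _ ≤ τ * (NN A₀ + 1) := by gcongr; linarith
    linarith
  set c : V2 := s • A₀ with hc
  have hcint : c ∈ interior Q := hscale A₀ hs₁Q s hs0 hs1
  -- the closest point
  have hcontN : Continuous (fun p : V2 => NN (p - c)) := by
    simp only [hNN]; fun_prop
  obtain ⟨A, ⟨hAint, hAc⟩, hAmin⟩ : ∃ A ∈ (interior Q)ᶜ ∩ {p : V2 | NN (p - c) ≤ NN (A₀ - c)},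
      IsMinOn (fun p : V2 => NN (p - c)) ((interior Q)ᶜ ∩ {p : V2 | NN (p - c) ≤ NN (A₀ - c)})
        A := by
    apply IsCompact.exists_isMinOn
    · apply Metric.isCompact_of_isClosed_isBounded
      · exact isOpen_interior.isClosed_compl.inter (isClosed_le hcontN continuous_const)
      · rw [Metric.isBounded_iff_subset_closedBall c]
        refine ⟨Real.sqrt (NN (A₀ - c)), ?_⟩
        rintro p ⟨-, hp⟩
        have hp' : NN (p - c) ≤ NN (A₀ - c) := hp
        rw [Metric.mem_closedBall, Prod.dist_eq, Real.dist_eq, Real.dist_eq]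
        simp only [hNN, Prod.fst_sub, Prod.snd_sub] at hp' ⊢
        apply max_le
        · apply Real.abs_le_sqrt
          nlinarith [sq_nonneg (p.2 - c.2)]
        · apply Real.abs_le_sqrt
          nlinarith [sq_nonneg (p.1 - c.1)]
    · exact ⟨A₀, hA₀int, (le_refl _ : NN (A₀ - c) ≤ NN (A₀ - c))⟩
    · exact hcontN.continuousOn
  have hmin : ∀ p : V2, p ∉ interior Q → NN (A - c) ≤ NN (p - c) := by
    intro p hp
    rcases le_total (NN (p - c)) (NN (A₀ - c)) with h | h
    · exact hAmin ⟨hp, h⟩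
    · exact le_trans hAc h
  set n : V2 := A - c with hn
  have hn0 : n ≠ 0 := by
    intro h
    apply hAint
    rw [sub_eq_zero.1 h]
    exact hcint
  have hnn : 0 < NN n := by
    by_contra hcon
    apply hn0
    have h1 : n.1 ^ 2 + n.2 ^ 2 ≤ 0 := not_lt.1 hcon
    have h2 : n.1 = 0 := by nlinarith [sq_nonneg n.1, sq_nonneg n.2]
    have h3 : n.2 = 0 := by nlinarith [sq_nonneg n.1, sq_nonneg n.2]
    exact Prod.ext h2 h3
  have hdisc : ∀ e : V2, NN e < NN n → c + e ∈ interior Q := by
    intro e he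
    by_contra hcon
    have h1 := hmin _ hcon
    rw [add_sub_cancel_left] at h1
    exact absurd h1 (not_le.2 he)
  have hAc' : A = c + n := by rw [hn]; abel
  have hAQ : A ∈ Q := by
    have h1 : Filter.Tendsto (fun k : ℕ => c + (1 - 1 / ((k : ℝ) + 1)) • n) Filter.atTop
        (𝓝 (c + (1 - 0 : ℝ) • n)) := by
      apply Filter.Tendsto.const_add
      apply Filter.Tendsto.smul_const
      exact (tendsto_one_div_add_atTop_nhds_zero_nat (𝕜 := ℝ)).const_sub 1
    rw [sub_zero, one_smul, ← hAc'] at h1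
    refine hQcl.mem_of_tendsto h1 (Filter.Eventually.of_forall ?_)
    intro k
    apply interior_subset
    apply hdisc
    have h2 : (0 : ℝ) < 1 / ((k : ℝ) + 1) := by positivity
    have h3 : 1 / ((k : ℝ) + 1) ≤ 1 := by
      rw [div_le_one (by positivity)]
      have : (0 : ℝ) ≤ k := Nat.cast_nonneg _
      linarith
    have e : NN ((1 - 1 / ((k : ℝ) + 1)) • n) = (1 - 1 / ((k : ℝ) + 1)) ^ 2 * NN n := by
      simp only [hNN, Prod.smul_fst, Prod.smul_snd, smul_eq_mul]
      ring
    rw [e]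
    have h4 : (1 - 1 / ((k : ℝ) + 1)) ^ 2 < 1 := by nlinarith
    nlinarith
  -- the support
  obtain ⟨f, hf⟩ := geometric_hahn_banach_open_point hQcv.interior isOpen_interior hAint
  have hfA : 0 < f A := by
    have := hf 0 hQ0
    rwa [map_zero] at this
  have hfQ : ∀ p ∈ Q, f p ≤ f A := by
    intro p hp
    by_contra hcon
    push Not at hcon
    have hfp : 0 < f p := hfA.trans hcon
    have h1 := hf _ (hscale p hp (f A / f p) (by positivity) (by rwa [div_lt_one hfp]))
    rw [map_smul, smul_eq_mul, div_mul_cancel₀ _ hfp.ne'] at h1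
    exact lt_irrefl _ h1
  set g₁ : ℝ := f ((1, 0) : V2) with hg₁
  set g₂ : ℝ := f ((0, 1) : V2) with hg₂
  have hfe : ∀ e : V2, f e = g₁ * e.1 + g₂ * e.2 := by
    intro e
    have e1 : e = e.1 • ((1, 0) : V2) + e.2 • ((0, 1) : V2) := by ext <;> simp
    conv_lhs => rw [e1]
    rw [map_add, map_smul, map_smul, smul_eq_mul, smul_eq_mul]
    ring
  have hfn : ∀ e : V2, NN e < NN n → f e < f n := by
    intro e he
    have h1 := hf _ (hdisc e he)
    rw [hAc', map_add, map_add] at h1
    linarith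
  have hgn : 0 < f n := by
    have h1 := hfn 0 (by simpa [hNN] using hnn)
    rwa [map_zero] at h1
  have hperp : ∀ σ : ℝ, σ ^ 2 = 1 → σ * (g₂ * n.1 - g₁ * n.2) ≤ 0 := by
    intro σ hσ
    by_contra hcon
    push Not at hcon
    set w : ℝ := σ * (g₂ * n.1 - g₁ * n.2) with hw
    -- e = (1 - t^2) n + t σ (-n.2, n.1)
    set t : ℝ := min (1 / 2) (w / (2 * f n)) with ht
    have ht0 : 0 < t := lt_min (by norm_num) (by positivity)
    have ht1 : t ≤ 1 / 2 := min_le_left _ _
    have ht2 : t * f n ≤ w / 2 := by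
      have h2 : t ≤ w / (2 * f n) := min_le_right _ _
      rw [le_div_iff₀ (by positivity)] at h2
      linarith
    have h1 := hfn ((1 - t ^ 2) • n + (t * σ) • ((-n.2, n.1) : V2)) (by
      have e : NN ((1 - t ^ 2) • n + (t * σ) • ((-n.2, n.1) : V2)) =
          ((1 - t ^ 2) ^ 2 + t ^ 2 * σ ^ 2) * NN n := by
        simp only [hNN, Prod.fst_add, Prod.snd_add, Prod.smul_fst, Prod.smul_snd, smul_eq_mul]
        ring
      rw [e, hσ]
      have h4 : (1 - t ^ 2) ^ 2 + t ^ 2 * 1 < 1 := by
        have h5 : t ^ 2 < 1 := by nlinarith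
        have h6 : 0 < t ^ 2 := by positivity
        nlinarith
      nlinarith)
    rw [map_add, map_smul, map_smul, smul_eq_mul, smul_eq_mul, hfe ((-n.2, n.1) : V2)] at h1
    have h2 : t * σ * (g₁ * -n.2 + g₂ * n.1) = t * w := by rw [hw]; ring
    rw [h2] at h1
    have h3 : t * w < t * (t * f n) := by nlinarith
    have h4 : w < t * f n := lt_of_mul_lt_mul_left h3 ht0.le
    linarith
  have hpar : g₂ * n.1 = g₁ * n.2 := by
    have h1 := hperp 1 (by norm_num)
    have h2 := hperp (-1) (by norm_num)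
    linarith
  have hg1 : NN n * g₁ = f n * n.1 := by
    rw [hfe n]; simp only [hNN]
    linear_combination (-n.2) * hpar
  have hg2 : NN n * g₂ = f n * n.2 := by
    rw [hfe n]; simp only [hNN]
    linear_combination (n.1) * hpar
  have hfg : ∀ p : V2, NN n * f p = f n * (n.1 * p.1 + n.2 * p.2) := by
    intro p
    rw [hfe p]
    linear_combination p.1 * hg1 + p.2 * hg2
  refine ⟨A, n, hn0, ?_, hAQ, ?_, ?_, ?_, ?_⟩
  · apply hδI
    have h1 : NN (A - c) ≤ NN (A₀ - c) := hAc
    have h2 : NN (A₀ - c) = NN (c - A₀) := by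
      simp only [hNN, Prod.fst_sub, Prod.snd_sub]; ring
    simp only [hNN, Prod.fst_sub, Prod.snd_sub] at h1 h2 hsd
    nlinarith [sq_nonneg ((A.1 - c.1) - (c.1 - A₀.1)), sq_nonneg ((A.2 - c.2) - (c.2 - A₀.2))]
  · intro e he
    have h1 : A - n + e = c + e := by rw [hn]; abel
    rw [h1]
    have h2 : c + e ∈ Q := interior_subset (hdisc e he)
    exact h2
  · intro p hp
    have h1 : NN n * f p ≤ NN n * f A := by
      have := hfQ p hp
      gcongr
    rw [hfg, hfg] at h1
    exact le_of_mul_le_mul_left h1 hgn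
  · have h1 : 0 < NN n * f A := by positivity
    rw [hfg] at h1
    exact (mul_pos_iff_of_pos_left hgn).1 h1
  · intro s hs
    rcases le_total 0 s with h | h
    · rw [abs_of_nonneg h] at hs
      exact hscale A hAQ s h hs
    · rw [abs_of_nonpos h] at hs
      have := hscale (-A) (hQs A hAQ) (-s) (by linarith) hs
      rwa [neg_smul_neg] at this

end Pool.Agent.H694.HT
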