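import Pool.Agent.H332.HT.Defs

/-!
Project HT (helper332), MP_eba1ef_gt: proof of `S_tan`.
-/

set_option autoImplicit false

namespace Pool.Agent.H694.HT

open Pool.Agent.H332.HT

theorem tan (_hP : S_P) (hf : S_fib) (hik : S_IntK) : S_tan := by
  intro K hK A n hn hA hAK hdisc κ hκ
  obtain ⟨z, hz⟩ := (hf K hK).1 A hA
  obtain ⟨δ, hδ, hball⟩ := Metric.isOpen_iff.1 isOpen_interior _ hz
  have hin : ∀ e : V2, ‖e‖ < δ → ((A + e, z) : V3) ∈ interior K := by
    intro e he
    apply hball
    rw [Metric.mem_ball, dist_eq_norm]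
    have : ((A + e, z) : V3) - (A, z) = (e, 0) := by ext <;> simp
    rw [this, Prod.norm_def]
    simpa using he
  have hz1 : -1 < z := by
    have h1 : ((A, z - δ / 2) : V3) ∈ interior K := by
      apply hball
      rw [Metric.mem_ball, dist_eq_norm]
      have : ((A, z - δ / 2) : V3) - (A, z) = (0, -(δ / 2)) := by
        ext <;> simp
      rw [this, Prod.norm_def]
      simp only [norm_zero, norm_neg, Real.norm_eq_abs]
      rw [abs_of_pos (by linarith)]
      exact max_lt hδ (by linarith)
    have h2 := abs_le.1 (hK.ht _ _ (interior_subset h1))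
    linarith [h2.1]
  set N : ℝ := ‖n‖ with hN
  have hN0 : 0 < N := norm_pos_iff.2 hn
  set u : V2 := (-n.2, n.1) with hu
  have hNu : ‖u‖ = N := by
    rw [hN, hu, Prod.norm_def, Prod.norm_def, norm_neg, max_comm]
  set h : ℝ := δ / (4 * N) with hh
  have hh0 : 0 < h := by positivity
  have hz2 : 0 < z + 1 := by linarith
  set t : ℝ := min (min (1 / 2) h) (min (κ * h / (2 * (z + 1))) ((z + 1) / (2 * κ))) with ht
  have ht0 : 0 < t := by
    refine lt_min (lt_min (by norm_num) hh0) (lt_min (by positivity) (by positivity))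
  have ht1 : t ≤ 1 / 2 := (min_le_left _ _).trans (min_le_left _ _)
  have ht2 : t ≤ h := (min_le_left _ _).trans (min_le_right _ _)
  have ht3 : t ≤ κ * h / (2 * (z + 1)) := (min_le_right _ _).trans (min_le_left _ _)
  have ht4 : t ≤ (z + 1) / (2 * κ) := (min_le_right _ _).trans (min_le_right _ _)
  have ht3' : t * (z + 1) ≤ κ * h / 2 := by
    rw [le_div_iff₀ (by positivity)] at ht3
    linarith
  have ht4' : t * κ ≤ (z + 1) / 2 := by
    rw [le_div_iff₀ (by positivity)] at ht4
    linarith
  have hhN : h * N = δ / 4 := by rw [hh]; field_simp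
  have htN : t * N ≤ δ / 4 := by
    rw [← hhN]; gcongr
  -- the point below
  have hs0 : 0 < t ^ 2 := by positivity
  have hlow : ((A + t • u - (t ^ 2) • n, (-1 : ℝ)) : V3) ∈ K := by
    have h1 := hdisc ((1 - t ^ 2) • n + t • u) (by
      have hn2 : 0 < n.1 ^ 2 + n.2 ^ 2 := by
        by_contra hcon
        apply hn
        have h1 : n.1 ^ 2 + n.2 ^ 2 ≤ 0 := not_lt.1 hcon
        have h2 : n.1 = 0 := by nlinarith [sq_nonneg n.1, sq_nonneg n.2]
        have h3 : n.2 = 0 := by nlinarith [sq_nonneg n.1, sq_nonneg n.2]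
        exact Prod.ext h2 h3
      have e : ((1 - t ^ 2) • n + t • u).1 ^ 2 + ((1 - t ^ 2) • n + t • u).2 ^ 2 =
          ((1 - t ^ 2) ^ 2 + t ^ 2) * (n.1 ^ 2 + n.2 ^ 2) := by
        simp only [hu, Prod.fst_add, Prod.snd_add, Prod.smul_fst, Prod.smul_snd, smul_eq_mul]
        ring
      rw [e]
      have h4 : (1 - t ^ 2) ^ 2 + t ^ 2 < 1 := by
        have h5 : t ^ 2 < 1 := by nlinarith
        nlinarith
      nlinarith)
    have e : A - n + ((1 - t ^ 2) • n + t • u) = A + t • u - (t ^ 2) • n := by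
      rw [sub_smul, one_smul]; abel
    rwa [e] at h1
  have hup : ((A + t • u + h • n, z) : V3) ∈ K := by
    apply interior_subset
    rw [add_assoc]
    apply hin
    calc ‖t • u + h • n‖ ≤ ‖t • u‖ + ‖h • n‖ := norm_add_le _ _
      _ = t * N + h * N := by
        rw [norm_smul, norm_smul, hNu, Real.norm_eq_abs, Real.norm_eq_abs, abs_of_pos ht0,
          abs_of_pos hh0]
      _ < δ := by rw [hhN]; linarith
  have hsum : 0 < t ^ 2 + h := by positivity
  have hmid : ((A + t • u, -1 + t ^ 2 / (t ^ 2 + h) * (z + 1)) : V3) ∈ K := by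
    have h1 := hK.cvx hlow hup (a := h / (t ^ 2 + h)) (b := t ^ 2 / (t ^ 2 + h))
      (by positivity) (by positivity) (by field_simp; ring)
    have e : (h / (t ^ 2 + h)) • ((A + t • u - (t ^ 2) • n, (-1 : ℝ)) : V3) +
        (t ^ 2 / (t ^ 2 + h)) • ((A + t • u + h • n, z) : V3) =
        ((A + t • u, -1 + t ^ 2 / (t ^ 2 + h) * (z + 1)) : V3) := by
      ext
      · simp only [Prod.fst_add, Prod.smul_fst, Prod.fst_sub, smul_eq_mul]
        field_simp
        ring
      · simp only [Prod.fst_add, Prod.smul_fst, Prod.snd_add, Prod.smul_snd, Prod.snd_sub,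
          smul_eq_mul]
        field_simp
        ring
      · simp only [Prod.snd_add, Prod.smul_snd, smul_eq_mul]
        field_simp
        ring
    rwa [e] at h1
  have hmidin : ((A + t • u, z) : V3) ∈ interior K := by
    apply hin
    rw [norm_smul, hNu, Real.norm_eq_abs, abs_of_pos ht0]
    linarith
  have hIP : A + t • u ∈ IP K := (hf K hK).2 _ hmidin
  refine ⟨t, ht0, ?_⟩
  have key := hik K hK (A + t • u) (-1 + t ^ 2 / (t ^ 2 + h) * (z + 1)) (-1 + t * κ) z hIP hmid
    (interior_subset hmidin) (by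
      have h1 : t ^ 2 / (t ^ 2 + h) * (z + 1) < t * κ := by
        rw [div_mul_eq_mul_div, div_lt_iff₀ hsum]
        have h2 : t ^ 2 * (z + 1) ≤ t * (κ * h / 2) := by nlinarith
        have h3 : 0 < t * κ * t ^ 2 := by positivity
        have h4 : 0 < t * κ * h := by positivity
        nlinarith
      linarith) (by linarith)
  have e : ((A, (-1 : ℝ)) : V3) + t • ((u, κ) : V3) = (A + t • u, -1 + t * κ) := by
    ext <;> simp
  rw [e]
  exact key

end Pool.Agent.H694.HT
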